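import Pool.Agent.W996.MW.Stm

/-! Project MW, part ENCOP: an isometric encoding preserves operator bounds. -/

open scoped ComplexOrder Matrix
open Pool.Agent.W996.MW

namespace Pool.Agent.W400.MW

section
variable {m n : Type*} [Fintype m] [Fintype n] [DecidableEq m] [DecidableEq n]

theorem proj_psd (W : Matrix m n ℂ) (hW : Wᴴ * W = 1) : (1 - W * Wᴴ).PosSemidef := by
  have h : (1 - W * Wᴴ)ᴴ * (1 - W * Wᴴ) = 1 - W * Wᴴ := by
    have h1 : (1 - W * Wᴴ)ᴴ = 1 - W * Wᴴ := by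
      rw [Matrix.conjTranspose_sub, Matrix.conjTranspose_mul, Matrix.conjTranspose_conjTranspose,
        Matrix.conjTranspose_one]
    rw [h1, Matrix.mul_sub, Matrix.mul_one, Matrix.sub_mul, Matrix.one_mul]
    have h2 : W * Wᴴ * (W * Wᴴ) = W * Wᴴ := by
      calc W * Wᴴ * (W * Wᴴ) = W * (Wᴴ * W) * Wᴴ := by simp only [Matrix.mul_assoc]
        _ = W * Wᴴ := by rw [hW, Matrix.mul_one]
    rw [h2, sub_self, sub_zero]
  rw [← h]
  exact Matrix.posSemidef_conjTranspose_mul_self _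

theorem bound (W : Matrix m n ℂ) (hW : Wᴴ * W = 1) (A : Matrix n n ℂ) (s : ℝ) (hs : 0 ≤ s)
    (hA : ((s : ℂ) • (1 : Matrix n n ℂ) - A).PosSemidef) :
    ((s : ℂ) • (1 : Matrix m m ℂ) - W * A * Wᴴ).PosSemidef := by
  have e : (s : ℂ) • (1 : Matrix m m ℂ) - W * A * Wᴴ =
      (s : ℂ) • (1 - W * Wᴴ) + W * ((s : ℂ) • (1 : Matrix n n ℂ) - A) * Wᴴ := by
    rw [Matrix.mul_sub, Matrix.sub_mul, Matrix.mul_smul, Matrix.mul_one, Matrix.smul_mul,
      smul_sub]
    abel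
  rw [e]
  refine Matrix.PosSemidef.add ?_ (hA.mul_mul_conjTranspose_same W)
  refine (proj_psd W hW).smul ?_
  exact_mod_cast hs

theorem acc (W : Matrix m n ℂ) (A : Matrix n n ℂ) (φ : m → ℂ) :
    accept (W * A * Wᴴ) φ = accept A (Wᴴ *ᵥ φ) := by
  unfold accept
  congr 1
  rw [← Matrix.mulVec_mulVec, ← Matrix.mulVec_mulVec, Matrix.dotProduct_mulVec, Matrix.star_mulVec,
    Matrix.conjTranspose_conjTranspose]

end

theorem encop : S_ENCOP := by
  classical
  intro κ _ _ l hW A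
  refine ⟨fun hA => ?_, fun s hs _ hA => ?_, fun φ => ?_⟩
  · exact hA.mul_mul_conjTranspose_same _
  · exact bound _ hW A s hs hA
  · exact acc _ A φ

end Pool.Agent.W400.MW
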